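import Pool.Agent.K1H44.BC.Plan

/-! Project BC: distribution of the prime factors. -/

set_option autoImplicit false

open Finset Nat

namespace Pool.Agent.K1H44.BC

theorem t_ASG : S_ASG := by
  intro k n S hk hkn hS he
  classical
  have hQ : ∀ i, (∏ p ∈ S.filter (fun p => p ∣ n - i), p) ∣ n - i := fun i =>
    Finset.prod_primes_dvd _ (fun p hp => (hS p (mem_filter.1 hp).1).1.prime) (fun p hp => (mem_filter.1 hp).2)
  refine ⟨fun i => (n - i) / ∏ p ∈ S.filter (fun p => p ∣ n - i), p, fun i => S.filter (fun p => p ∣ n - i),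
    fun i hi => ⟨filter_subset _ _, (Nat.div_mul_cancel (hQ i)).symm⟩, ?_⟩
  have hdesc : ∏ i ∈ range k, (n - i) = k ! * n.choose k := by
    rw [← Nat.descFactorial_eq_prod_range, Nat.descFactorial_eq_factorial_mul_choose]
  have hprodQ : ∏ i ∈ range k, ∏ p ∈ S.filter (fun p => p ∣ n - i), p = n.choose k := by
    rw [he, ← Finset.prod_biUnion]
    · refine Finset.prod_congr ?_ fun _ _ => rfl
      ext p
      simp only [mem_biUnion, mem_range, mem_filter]
      constructor
      · rintro ⟨i, -, hp, -⟩
        exact hp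
      · intro hp
        have h1 : p ∣ n.choose k := he ▸ Finset.dvd_prod_of_mem _ hp
        have h2 : p ∣ ∏ i ∈ range k, (n - i) := hdesc ▸ h1.mul_left _
        obtain ⟨i, hi, h3⟩ := (Prime.dvd_finset_prod_iff (hS p hp).1.prime _).1 h2
        exact ⟨i, mem_range.1 hi, hp, h3⟩
    · intro i hi j hj hij
      rw [Function.onFun, Finset.disjoint_left]
      intro p hp hp'
      rw [mem_filter] at hp hp'
      rw [coe_range, Set.mem_Iio] at hi hj
      have hkp := (hS p hp.1).2
      rcases lt_or_gt_of_ne hij with h | h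
      · have h3 : p ∣ (n - i) - (n - j) := Nat.dvd_sub hp.2 hp'.2
        have h4 : (n - i) - (n - j) = j - i := by omega
        rw [h4] at h3
        have := Nat.le_of_dvd (by omega) h3
        omega
      · have h3 : p ∣ (n - j) - (n - i) := Nat.dvd_sub hp'.2 hp.2
        have h4 : (n - j) - (n - i) = i - j := by omega
        rw [h4] at h3
        have := Nat.le_of_dvd (by omega) h3
        omega
  have hm : (∏ i ∈ range k, (n - i) / ∏ p ∈ S.filter (fun p => p ∣ n - i), p) *
      ∏ i ∈ range k, ∏ p ∈ S.filter (fun p => p ∣ n - i), p = ∏ i ∈ range k, (n - i) := by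
    rw [← prod_mul_distrib]
    exact prod_congr rfl fun i _ => Nat.div_mul_cancel (hQ i)
  rw [hprodQ, hdesc] at hm
  exact Nat.eq_of_mul_eq_mul_right (Nat.choose_pos hkn) hm

end Pool.Agent.K1H44.BC
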