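import Pool.Agent.K1H44.BC.Main
import Pool.Agent.K1H44.BC.Asg
import Pool.Agent.K1H37.BC.Pow
import Pool.Agent.K1H96.BC.E
import Pool.Agent.K1H77.BC.SH
import Pool.Agent.K1H8.BC.Top
import Pool.Agent.K1H52.BC.Idx
import Pool.Agent.K1H64.BC.Fin
import Pool.Agent.H295R3.Hoheisel

/-! Project BC: all pieces together. -/

set_option autoImplicit false

open Finset Nat

namespace Pool.Agent.K1H44.BC

theorem fin (k : ℕ) (hk : 2 ≤ k) :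
    ∃ C : ℝ, ∃ n₀ : ℕ, ∀ n : ℕ, n₀ ≤ n → ∀ a b : ℕ, a < b →
      Nat.choose n k = ∏ i ∈ Finset.Ico a b, Nat.nth Nat.Prime i →
      (Nat.nth Nat.Prime (b - 1) : ℝ) ≤ Real.log n ^ C ∧
        Real.log n ≤ C * ((b - a : ℕ) : ℝ) * Real.log (Real.log n) :=
  main Pool.Agent.K1H37.BC.t_POW t_ASG Pool.Agent.K1H96.BC.t_E Pool.Agent.K1H77.BC.t_SH
    Pool.Agent.K1H8.BC.t_TOP Pool.Agent.K1H52.BC.t_IDX Pool.Agent.K1H64.BC.t_FIN Pool.Agent.H295R3.D.hoheisel k hk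

end Pool.Agent.K1H44.BC
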