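import Pool.Agent.K1H44.BC.Plan

/-! Project BC: the assembly. -/

set_option autoImplicit false

open Finset Nat

namespace Pool.Agent.K1H44.BC

theorem main (hP : S_POW) (hA : S_ASG) (hE : S_E) (hS : S_SH) (hT : S_TOP) (hI : S_IDX) (hF : S_FIN)
    (hH : Pool.Agent.H469R10.HO.Hoheisel) (k : ℕ) (hk : 2 ≤ k) :
    ∃ C : ℝ, ∃ n₀ : ℕ, ∀ n : ℕ, n₀ ≤ n → ∀ a b : ℕ, a < b →
      Nat.choose n k = ∏ i ∈ Finset.Ico a b, Nat.nth Nat.Prime i →
      (Nat.nth Nat.Prime (b - 1) : ℝ) ≤ Real.log n ^ C ∧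
        Real.log n ≤ C * ((b - a : ℕ) : ℝ) * Real.log (Real.log n) := by
  obtain ⟨C, n₀, h⟩ := hF k hk (hE hP hA k hk) (hS hH) (hT hH)
  refine ⟨C, n₀, fun n hn a b hab he => ?_⟩
  obtain ⟨h1, h2⟩ := hI a b hab
  have h3 := h n (Nat.nth Nat.Prime a) (Nat.nth Nat.Prime (b - 1)) hn
    (Nat.nth_mem_of_infinite Nat.infinite_setOf_prime _)
    ((Nat.nth_strictMono Nat.infinite_setOf_prime).monotone (by omega)) (he.trans h1)
  rw [h2] at h3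
  exact h3

end Pool.Agent.K1H44.BC
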